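import Pool.Agent.ZPB.BFinal

/-!
# MP_d83ecd_ag: isogenous triples with bad reduction on an arbitrary curve in `Y(1)ⁿ`
-/

namespace Pool.Agent.Results.MP_d83ecd_ag.BadReduction

open UpperHalfPlane MvPolynomial Pool.Agent.Hhelper14.ZPL Pool.Agent.Hhelper14.ZP Pool.Agent.ZPB

/-- **Isogenous triples with bad reduction on an arbitrary curve.** Let `V ⊆ Y(1)ⁿ = ℂⁿ` be an
irreducible curve defined over the algebraic numbers, and `i 0, i 1, i 2` three coordinates which are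
nonconstant on `V` and no two of which are related by a modular correspondence on `V`. Let `P` be a set
of primes; if `P` is infinite suppose that the closure of the image of `V` in `(ℙ¹)³` does not contain
`(∞, ∞, ∞)` (there is a polynomial `Q` in `1/x_(i 0), 1/x_(i 1), 1/x_(i 2)` with nonzero constant term which
vanishes on `V`). Then, for all but finitely many `x ∈ V` with `x_(i 0), x_(i 1), x_(i 2)` pairwise isogenous,
`x_(i 0)` is integral at all places above all primes of `P`. -/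
theorem result {n : ℕ} {V : Set (Fin n → ℂ)} (hV : Pool.Agent.Hhelper14.ZPL.IsIrredClosed V)
    (hVk : KClosed V) (hdim : Pool.Agent.Hhelper14.ZPL.dim V = 1) (i : Fin 3 → Fin n)
    (hconst : ∀ a, ∀ c : ℂ, ∃ x ∈ V, x (i a) ≠ c)
    (hmod : ∀ a b, a ≠ b → ∀ g : GL (Fin 2) ℚ, 0 < g.det.val →
      ∃ x ∈ V, ¬ ∃ τ : ℍ, x (i a) = jInv τ ∧ x (i b) = jInv (gact g τ))
    (P : Set ℕ) (hP : P.Finite ∨ ∃ Q : MvPolynomial (Fin 3) ℂ, constantCoeff Q ≠ 0 ∧
      ∀ x ∈ V, (∀ a, x (i a) ≠ 0) → eval (fun a => (x (i a))⁻¹) Q = 0) :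
    {x ∈ V | HeckeRel (x (i 0)) (x (i 1)) ∧ HeckeRel (x (i 0)) (x (i 2)) ∧
      ∃ p ∈ P, p.Prime ∧ ¬ IntAt p (x (i 0))}.Finite := by
  rcases hP with hP | ⟨Q, hQ0, hQ⟩
  · have h1 : {x ∈ V | HeckeRel (x (i 0)) (x (i 1)) ∧ HeckeRel (x (i 0)) (x (i 2)) ∧
        ∃ p ∈ P, p.Prime ∧ ¬ IntAt p (x (i 0))} ⊆
        ⋃ p ∈ {p | p ∈ P ∧ p.Prime}, {x ∈ V | HeckeRel (x (i 0)) (x (i 1)) ∧
          HeckeRel (x (i 0)) (x (i 2)) ∧ ¬ IntAt p (x (i 0))} := by
      rintro x ⟨hx, hx1, hx2, p, hp, hpp, hxp⟩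
      exact Set.mem_biUnion (show p ∈ {p | p ∈ P ∧ p.Prime} from ⟨hp, hpp⟩) ⟨hx, hx1, hx2, hxp⟩
    refine Set.Finite.subset (Set.Finite.biUnion (hP.subset fun p hp => hp.1) fun p hp => ?_) h1
    exact finite_bad hV hVk hdim i hconst hmod p hp.2
  · refine (finite_nonint hV hVk hdim i hconst hmod hQ0 hQ).subset ?_
    rintro x ⟨hx, hx1, hx2, p, hp, hpp, hxp⟩
    refine ⟨hx, hx1, hx2, fun hint => hxp ⟨1, ?_, ?_⟩⟩
    · intro hdvd
      exact hpp.one_lt.ne' (Nat.dvd_one.mp hdvd)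
    · rw [Nat.cast_one, one_mul]
      exact hint

end Pool.Agent.Results.MP_d83ecd_ag.BadReduction
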