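import Pool.Agent.LGO.ZV.RatAll

/-!
# MP_d83ecd_ag: the Zilber-Pink conjecture for curves of any genus in `Y(1)³`
-/

namespace Pool.Agent.Retired.MP_d83ecd_ag.CurvesInY3

open UpperHalfPlane MvPolynomial Pool.Agent.Hhelper14.ZPL Pool.Agent.Hhelper14.ZP Pool.Agent.LGO

/-- **The Zilber-Pink conjecture for curves in `Y(1)³`.** Let `V ⊆ Y(1)³ = ℂ³` be an irreducible curve (of any
genus) defined over the algebraic numbers, with nonconstant coordinates. Assume that
(1) two of the three coordinates are rational functions of one parameter (`RatPlane`; no condition on the third), or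
that the closure of `V` in `(ℙ¹)³` does not contain `(∞, ∞, ∞)` (there is a polynomial `Q` in
`1/x_0, 1/x_1, 1/x_2` with nonzero constant term which vanishes on `V`) and one of the following:
(2) `V` has points at infinity where exactly the coordinate `k₁` resp. `k₂` is finite, `k₁ ≠ k₂`;
(3) `V` has a point at infinity with exactly two infinite coordinates, these multiplicatively equivalent,
the finite one not CM (`TwoInfRes`);
(4) `V` has a point at infinity with exactly one infinite coordinate such that one of the finite coordinates is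
CM or the two finite coordinates are isogenous (`OneInfRes`).
Then finitely many proper special subvarieties contain all atypical intersections of `V` with special subvarieties. -/
theorem result {V : Set (Fin 3 → ℂ)} (hV : Pool.Agent.Hhelper14.ZPL.IsIrredClosed V)
    (hVk : KClosed V) (hdim : Pool.Agent.Hhelper14.ZPL.dim V = 1)
    (hconst : ∀ (a : Fin 3) (c : ℂ), ∃ x ∈ V, x a ≠ c)
    (h : (∃ a b : Fin 3, a ≠ b ∧ RatPlane V a b) ∨
      ((∃ Q : MvPolynomial (Fin 3) ℂ, constantCoeff Q ≠ 0 ∧
          ∀ x ∈ V, (∀ a, x a ≠ 0) → eval (fun a => (x a)⁻¹) Q = 0) ∧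
        ((∃ k₁ k₂ : Fin 3, k₁ ≠ k₂ ∧ TwoInf V id k₁ ∧ TwoInf V id k₂) ∨ TwoInfRes V id ∨
          OneInfRes V id))) :
    Pool.Agent.ZPE.FinAtypical V := by
  rcases h with ⟨a, b, hab, h⟩ | ⟨⟨Q, hQ0, hQ⟩, h⟩
  · exact ZV.plane_y3 hV hVk hdim hconst hab h
  · have h' : (∃ k₁ k₂ : Fin 3, k₁ ≠ k₂ ∧ TwoInf V id k₁ ∧ TwoInf V id k₂) ∨ TwoInfRes V id ∨
        OneInfRes V id ∨ U.Rat V id := by
      rcases h with h | h | h
      · exact Or.inl h
      · exact Or.inr (Or.inl h)
      · exact Or.inr (Or.inr (Or.inl h))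
    exact ZV.flag_v hV hVk hdim hconst ZG.cmAll (fun _ => ZG.cm_alg) hQ0 hQ h'

end Pool.Agent.Retired.MP_d83ecd_ag.CurvesInY3
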