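import Pool.Agent.LGO.End.F
import Pool.Agent.LGO.End.RatC

/-!
# MP_d83ecd_ag: finiteness of isogenous triples on curves in `Y(1)ⁿ`
-/

namespace Pool.Agent.Results.MP_d83ecd_ag.IsogenousTriples

open UpperHalfPlane MvPolynomial Pool.Agent.Hhelper14.ZPL Pool.Agent.Hhelper14.ZP Pool.Agent.LGO

/-- **Finiteness of isogenous triples.** Let `V ⊆ Y(1)ⁿ = ℂⁿ` be an irreducible curve defined over the
algebraic numbers, `i 0, i 1, i 2` three coordinates which are nonconstant on `V`, no two of which are related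
by a modular correspondence on `V`, such that the closure of the image of `V` in `(ℙ¹)³` does not contain
`(∞, ∞, ∞)` (there is a polynomial `Q` in `1/x_(i 0), 1/x_(i 1), 1/x_(i 2)` with nonzero constant term which
vanishes on `V`). Assume one of the following:
(1) `V` has points at infinity where exactly the coordinate `k₁` resp. `k₂` of the three is finite, `k₁ ≠ k₂`;
(2) `V` has a point at infinity with exactly two infinite coordinates, these multiplicatively equivalent,
the finite one not CM (`TwoInfRes`);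
(3) `V` has a point at infinity with exactly one infinite coordinate such that one of the finite coordinates is
CM or the two finite coordinates are isogenous (`OneInfRes`);
(4) the three coordinates are rational functions of one parameter (`RatThree`);
(5) two of the three coordinates are rational functions of one parameter which do not have both the same poles
and the same degree (`RatTwo`).
Then `V` contains only finitely many points `x` with `x_(i 0), x_(i 1), x_(i 2)` pairwise isogenous and not CM. -/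
theorem result {n : ℕ} {V : Set (Fin n → ℂ)} (hV : Pool.Agent.Hhelper14.ZPL.IsIrredClosed V)
    (hVk : KClosed V) (hdim : Pool.Agent.Hhelper14.ZPL.dim V = 1) (i : Fin 3 → Fin n)
    (hconst : ∀ a, ∀ c : ℂ, ∃ x ∈ V, x (i a) ≠ c)
    (hmod : ∀ a b, a ≠ b → ∀ g : GL (Fin 2) ℚ, 0 < g.det.val →
      ∃ x ∈ V, ¬ ∃ τ : ℍ, x (i a) = jInv τ ∧ x (i b) = jInv (gact g τ))
    (Q : MvPolynomial (Fin 3) ℂ) (hQ0 : constantCoeff Q ≠ 0)
    (hQ : ∀ x ∈ V, (∀ a, x (i a) ≠ 0) → eval (fun a => (x (i a))⁻¹) Q = 0)
    (h : (∃ k₁ k₂ : Fin 3, k₁ ≠ k₂ ∧ TwoInf V i k₁ ∧ TwoInf V i k₂) ∨ TwoInfRes V i ∨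
      OneInfRes V i ∨ RatThree V i ∨ RatTwo V i) :
    {x ∈ V | HeckeRel (x (i 0)) (x (i 1)) ∧ HeckeRel (x (i 0)) (x (i 2)) ∧
      ∀ τ : ℍ, jInv τ = x (i 0) → ¬ IsCM τ}.Finite := by
  have h' : (∃ k₁ k₂ : Fin 3, k₁ ≠ k₂ ∧ TwoInf V i k₁ ∧ TwoInf V i k₂) ∨ TwoInfRes V i ∨
      OneInfRes V i ∨ U.Rat V i := by
    rcases h with h | h | h | h | h
    · exact Or.inl h
    · exact Or.inr (Or.inl h)
    · exact Or.inr (Or.inr (Or.inl h))
    · exact Or.inr (Or.inr (Or.inr h.rat))
    · exact Or.inr (Or.inr (Or.inr h.rat))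
  refine (fin_flag hV hVk hdim i hconst hmod hQ0 hQ h').subset ?_
  rintro x ⟨hx, h1, h2, h3⟩
  exact ⟨hx, h3, h1, h2⟩

end Pool.Agent.Results.MP_d83ecd_ag.IsogenousTriples
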