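import Pool.Agent.Hhelper14.ZP2.Crit

/-!
# MP_d83ecd_ag: a local criterion for the absence of atypical intersections in `Y(1)ⁿ`
-/

namespace Pool.Agent.Results.MP_d83ecd_ag.LocalCriterion

open Pool.Agent.Hhelper14.ZP

/-- **Local criterion.** A subvariety of codimension `c` in `Y(1)ⁿ` has no atypical intersections
if none of its points looks, at all `p`-adic places of `ℂ`, like a point on a special subvariety
with fewer than `c` blocks. -/
theorem result {n c : ℕ} (hcn : c ≤ n) (V : Set (Fin n → ℂ))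
    (hdim : ((n - c : ℕ) : WithBot ℕ∞) ≤ dim V)
    (H : ∀ x ∈ V, ∀ r < c, ∀ t : Fin n → Option (Fin r), ∃ (p : ℕ) (_ : Fact p.Prime)
      (φ : ℂ →+* PadicComplex p), (∃ i, t i = none ∧ 1 < ‖φ (x i)‖) ∨
        ∃ i i' b, t i = some b ∧ t i' = some b ∧ ¬ LocIsog φ (x i) (x i')) : NoAtypical V :=
  local_criterion hcn hdim H

end Pool.Agent.Results.MP_d83ecd_ag.LocalCriterion
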