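import Pool.Agent.LGO.FC.LowC

/-!
# MP_d83ecd_ag: curves in `Y(1)ⁿ` and special subvarieties of dimension `< n / 4`
-/

namespace Pool.Agent.Retired.MP_d83ecd_ag.LowDimension

open Pool.Agent.Hhelper14.ZP

/-- **The Zilber-Pink statement for curves and special subvarieties of dimension `< n / 4`.** Let
`V ⊆ Y(1)ⁿ = ℂⁿ`, `n ≥ 2`, be any irreducible curve over the complex numbers. Then there are finitely
many proper special subvarieties such that every component of the intersection of `V` with any special subvariety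
of dimension `< n / 4` lies in one of them. -/
theorem result {n : ℕ} (hn : 2 ≤ n) {V : Set (Fin n → ℂ)} (hV : IsIrredClosed V) (hdim : dim V = 1) :
    ∃ S : Set (Set (Fin n → ℂ)), S.Finite ∧ (∀ T ∈ S, IsSpecial T ∧ T ≠ Set.univ) ∧
      ∀ Z, IsSpecial Z → 4 * dim Z < n → ∀ C, IsComponent C (V ∩ Z) → ∃ T ∈ S, C ⊆ T := by
  obtain ⟨S, h1, h2, h3⟩ := Pool.Agent.LGO.FC.low_C hV hdim hn
  exact ⟨S, h1, h2, fun Z hZ hd => h3 Z hZ (by exact_mod_cast hd)⟩

end Pool.Agent.Retired.MP_d83ecd_ag.LowDimension
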