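import Pool.Agent.Hhelper14.ZPL.Plane
import Pool.Agent.Hhelper14.ZPL.Reindex

/-!
# The Zilber–Pink conjecture for `Y(1)ⁿ` reduces to the powers of one plane
-/

namespace Pool.Agent.Results.MP_d83ecd_ag.PlanePowers

open Pool.Agent.Hhelper14.ZPL

/-- The following are equivalent:

(A) for every `m`, the power `P ^ m ⊆ Y(1) ^ (3m)` of the plane `P = {x + y = z} ⊆ Y(1)³ = ℂ³` has
only finitely many maximal atypical subvarieties;

(B) for every finite set `ι`, every Zariski closed `V ⊆ Y(1)^ι = ℂ^ι` has only finitely many maximal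
atypical subvarieties;

(C) Q1 of the problem for all the Shimura varieties `Y(1)^ι`: for a closed `V ≠ ℂ^ι` and a sequence
`Z k` of special subvarieties with atypical components `W k` of `V ∩ Z k`, the union of the `W k` is
contained in a finite union of proper special subvarieties. -/
theorem result : List.TFAE [
    (∀ m : ℕ,
      (MaxAtypical {z : Fin m × Fin 3 → ℂ | ∀ i, z (i, 0) + z (i, 1) = z (i, 2)}).Finite),
    (∀ (ι : Type) [Fintype ι] (V : Set (ι → ℂ)), IsZClosed V → (MaxAtypical V).Finite),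
    (∀ (ι : Type) [Fintype ι] (V : Set (ι → ℂ)), IsZClosed V → V ≠ Set.univ →
      ∀ (Z W : ℕ → Set (ι → ℂ)), (∀ k, IsSpecial (Z k) ∧ IsComponent (W k) (V ∩ Z k) ∧
          dim (Z k) + dim V < dim (W k) + Fintype.card ι) →
        ∃ S : Set (Set (ι → ℂ)), S.Finite ∧ (∀ T ∈ S, IsSpecial T ∧ T ≠ Set.univ) ∧
          ⋃ k, W k ⊆ ⋃₀ S)] := by
  tfae_have 1 → 2 := fun h => nd_to_allFinite (ndk_to_nd (plane_to_ndk (planePow_fin h)))
  tfae_have 2 → 3 := fun h => allFinite_to_q1 h
  tfae_have 3 → 1 := fun h m => by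
    refine nd_to_allFinite (q1_to_nd h) _ _ ?_
    exact planePow_closed (Fin m)
  tfae_finish

end Pool.Agent.Results.MP_d83ecd_ag.PlanePowers
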