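import Pool.Agent.Hhelper14.ZP.Class

/-!
# MP_d83ecd_ag: Zilber-Pink for a positive proportion of the subvarieties of `Y(1)ⁿ`
-/

namespace Pool.Agent.Results.MP_d83ecd_ag.PositiveProportion

open Pool.Agent.Hhelper14.ZP

/-- **A positive proportion of the subvarieties of `Y(1)ⁿ` cut out by `c` integral polynomials of
given multidegrees (all of them positive) have no atypical intersections**, so satisfy the
Zilber-Pink conjecture. -/
theorem result (n c : ℕ) (hcn : c ≤ n) (d : Fin c → Fin n → ℕ) (hd : ∀ k i, 1 ≤ d k i) :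
    ∃ δ : ℝ, 0 < δ ∧ ∀ᶠ H : ℕ in Filter.atTop,
      δ * (2 * (H : ℝ) + 1) ^ (∑ k, ∏ i, (d k i + 1)) ≤
        (Set.ncard {a : Tuple d | (∀ k α, |a k α| ≤ (H : ℤ)) ∧ IsGood a} : ℝ) := by
  classical
  obtain ⟨M, ρ, hM, hρ⟩ := exists_class hcn hd
  have hM' : (0 : ℝ) < M := by exact_mod_cast hM
  refine ⟨(1 / (2 * M : ℝ)) ^ (∑ k, ∏ i, (d k i + 1)), by positivity, ?_⟩
  filter_upwards [Filter.eventually_ge_atTop M] with H hH
  let S : (k : Fin c) → ((i : Fin n) → Fin (d k i + 1)) → Finset ℤ := fun k α =>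
    (Finset.Icc (-(H : ℤ)) H).filter (fun x => x ≡ ρ k α [ZMOD M])
  let F : Finset (Tuple d) := Fintype.piFinset fun k => Fintype.piFinset fun α => S k α
  have hcard : (F.card : ℝ) = ∏ k, ∏ α, ((S k α).card : ℝ) := by
    simp only [F, Fintype.card_piFinset]
    push_cast
    rfl
  have hfin : {a : Tuple d | (∀ k α, |a k α| ≤ (H : ℤ)) ∧ IsGood a}.Finite := by
    refine Set.Finite.subset (Finset.finite_toSet (Fintype.piFinset fun k : Fin c =>
      Fintype.piFinset fun _ : ((i : Fin n) → Fin (d k i + 1)) => Finset.Icc (-(H : ℤ)) H)) ?_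
    rintro a ⟨ha, -⟩
    rw [Finset.mem_coe, Fintype.mem_piFinset]
    intro k
    rw [Fintype.mem_piFinset]
    intro α
    exact Finset.mem_Icc.mpr (abs_le.mp (ha k α))
  have hsub : (F : Set (Tuple d)) ⊆ {a : Tuple d | (∀ k α, |a k α| ≤ (H : ℤ)) ∧ IsGood a} := by
    intro a ha
    have ha' : ∀ k α, a k α ∈ S k α := by
      intro k α
      have h1 := (Fintype.mem_piFinset.mp (Finset.mem_coe.mp ha)) k
      exact (Fintype.mem_piFinset.mp h1) α
    refine ⟨fun k α => ?_, hρ a fun k α => (Finset.mem_filter.mp (ha' k α)).2⟩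
    exact abs_le.mpr (Finset.mem_Icc.mp (Finset.mem_filter.mp (ha' k α)).1)
  have h1 : (F.card : ℝ) ≤ (Set.ncard {a : Tuple d | (∀ k α, |a k α| ≤ (H : ℤ)) ∧ IsGood a} : ℝ) := by
    have h2 := Set.ncard_le_ncard hsub hfin
    rw [Set.ncard_coe_finset] at h2
    exact_mod_cast h2
  refine le_trans ?_ h1
  rw [hcard, ← mul_pow, ← Finset.prod_pow_eq_pow_sum]
  refine Finset.prod_le_prod (fun k _ => by positivity) fun k _ => ?_
  have h3 : (∏ i, (d k i + 1)) = Fintype.card ((i : Fin n) → Fin (d k i + 1)) := by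
    simp [Fintype.card_pi]
  rw [h3, ← Finset.card_univ, ← Finset.prod_const]
  refine Finset.prod_le_prod (fun α _ => by positivity) fun α _ => ?_
  have h4 := card_residue hM (ρ k α) (H := H) (by omega)
  calc 1 / (2 * (M : ℝ)) * (2 * (H : ℝ) + 1) = (2 * H + 1 : ℝ) / (2 * M) := by ring
    _ ≤ _ := h4

end Pool.Agent.Results.MP_d83ecd_ag.PositiveProportion
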