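import Pool.Agent.LGO.FC.FinC

/-!
# MP_d83ecd_ag: the Zilber-Pink conjecture for all rational curves in `Y(1)ⁿ`
-/

namespace Pool.Agent.Results.MP_d83ecd_ag.RationalCurves

open Polynomial Pool.Agent.ZPE Pool.Agent.LGO.ZG

/-- **The Zilber-Pink conjecture for all rational curves in `Y(1)ⁿ`.** Let `x_i = A_i(t) / B_i(t)`, `i = 1, …, n`, be
rational functions with complex coefficients (constants are allowed), and let `V ⊆ Y(1)ⁿ = ℂⁿ` be the Zariski closure
of the set of the points `(x_i(t))_i`. Then all atypical intersections of `V` with special subvarieties lie in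
finitely many proper special subvarieties. -/
theorem result {n : ℕ} (A B : Fin n → ℂ[X]) (hB0 : ∀ i, B i ≠ 0) : FinAtypical (ratCurve A B) :=
  Pool.Agent.LGO.FC.main_rcC hB0

end Pool.Agent.Results.MP_d83ecd_ag.RationalCurves
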