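import Pool.Agent.LGO.TI.Main

/-!
# MP_d83ecd_ag: the Zilber-Pink conjecture for curves in `Y(1)ⁿ` whose divisors of degree zero at infinity are torsion
-/

namespace Pool.Agent.Results.MP_d83ecd_ag.TorsionCurves

open Pool.Agent.Hhelper14.ZPL Pool.Agent.LGO.FC Pool.Agent.LGO.TI Pool.Agent.ZPE

/-- **The Zilber-Pink conjecture for curves with torsion classes at infinity.** Let `V ⊆ Y(1)ⁿ = ℂⁿ` be an irreducible
curve over `ℂ` (any genus, constant coordinates allowed).  Assume that every projection `C = cp ![a, b] V` of `V` to two
nonconstant coordinates which is defined over the algebraic numbers (`KClosed`) is defined over a field `K` algebraic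
over `ℚ` (`DefOver`; for example a number field) such that the divisors of degree `0` of `C` over `K` at infinity are
torsion (`TorInf`: any two polynomials with coefficients in `K`, not constant on `C`, have linearly equivalent positive
multiples of their pole divisors).  This holds for example if `V` is defined over a number field `K` and the
Jacobian of `V` has only finitely many `K`-points, and for every rational curve `V` over `ℂ`.
Then finitely many proper special subvarieties contain all atypical intersections of `V` with special
subvarieties. -/
theorem result {n : ℕ} {V : Set (Fin n → ℂ)} (hV : Pool.Agent.Hhelper14.ZPL.IsIrredClosed V)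
    (hdim : Pool.Agent.Hhelper14.ZPL.dim V = 1)
    (h : ∀ a b : Fin n, a ≠ b → (∀ c : ℂ, ∃ x ∈ V, x a ≠ c) → (∀ c : ℂ, ∃ x ∈ V, x b ≠ c) →
      KClosed (cp ![a, b] V) → ∃ K : IntermediateField ℚ ℂ, Algebra.IsAlgebraic ℚ K ∧
        DefOver K (cp ![a, b] V) ∧ TorInf K (cp ![a, b] V)) :
    FinAtypical V :=
  main_ti hV hdim h

end Pool.Agent.Results.MP_d83ecd_ag.TorsionCurves
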