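import Pool.Agent.Hhelper14.ZP2.Main

/-!
# MP_d83ecd_ag: Zilber-Pink for translates of an arbitrary subvariety of `Y(1)ⁿ`
-/

namespace Pool.Agent.Results.MP_d83ecd_ag.Translates

open Pool.Agent.Hhelper14.ZP

/-- **Every irreducible subvariety `V` of `Y(1)ⁿ` has, for infinitely many primes `p`, a full
residue class modulo `p ^ 5` of translates `g V`, `g ∈ PGL₂(ℚ)ⁿ`, that have no atypical
intersection with a special subvariety.** -/
theorem result {n : ℕ} (V : Set (Fin n → ℂ)) (hV : IsIrredClosed V) (P₀ : ℕ) :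
    ∃ p : ℕ, P₀ ≤ p ∧ p.Prime ∧ ∃ ρ : Fin n → Matrix (Fin 2) (Fin 2) ℤ,
      ∀ g : Fin n → Matrix (Fin 2) (Fin 2) ℤ, (∀ i j k, g i j k ≡ ρ i j k [ZMOD (p : ℤ) ^ 5]) →
        (∀ i, (g i).det ≠ 0) ∧ IsIrredClosed (translate g V) ∧
          dim (translate g V) = dim V ∧ NoAtypical (translate g V) :=
  exists_translate_class hV P₀

end Pool.Agent.Results.MP_d83ecd_ag.Translates
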